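import Pool.Agent.H60.MBb
import Pool.Agent.H60.MBc

set_option autoImplicit false

namespace Pool.Agent.Results.MP_aefbf4_co.No

open Pool.Agent.H60.MB

theorem result :
    ∃ (V E : Type) (_ : DecidableEq E) (ends : E → Sym2 V),
      Infinite V ∧ (∀ e, ¬ (ends e).IsDiag) ∧ (∀ x y : V, Reach ends Set.univ x y) ∧
      ∃ p q : ℕ, 1 ≤ p ∧ 1 ≤ q ∧ (∀ v₀ : V, BreakerWins ends v₀ p q ∅) ∧
        ∃ (v₀ : V) (F : Finset E), ¬ BreakerWins ends v₀ p q F := by
  refine ⟨Vx, Ed, inferInstance, ends, inferInstance, ?_, conn, 3315, 51, by norm_num, by norm_num,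
    breaker_wins, root, maker_wins⟩
  intro e he
  have h1 : (some e : Vx) = up e := Sym2.mk_isDiag_iff.mp he
  have h2 := ht_up e
  rw [← h1] at h2
  exact lt_irrefl _ h2

end Pool.Agent.Results.MP_aefbf4_co.No
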